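import Pool.Agent.H34.Ipq.Quat
import Pool.Agent.H34.Ipg.Addb

/-!
# `ℤ₃` is an ADDB-domain
-/

set_option autoImplicit false

open Polynomial Pool.Agent.H17Sv

namespace Pool.Agent.H34.Ipq

theorem bounded_local {D : Type*} [CommRing D] [IsDedekindDomain D] [IsLocalRing D]
    (p : D) (hp : p ≠ 0) : BoundedAt p := by
  have key : ∀ M : Ideal D, ∃ c : ℕ, ∀ (hM : M.IsMaximal),
      algebraMap D (Localization.AtPrime M) p ∉
        IsLocalRing.maximalIdeal (Localization.AtPrime M) ^ c := by
    intro M
    by_cases hM : M.IsMaximal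
    · by_contra hcon
      push Not at hcon
      have h1 : algebraMap D (Localization.AtPrime M) p ∈
          ⨅ c : ℕ, IsLocalRing.maximalIdeal (Localization.AtPrime M) ^ c := by
        rw [Submodule.mem_iInf]
        intro c
        obtain ⟨_, h⟩ := hcon c
        exact h
      rw [Ideal.iInf_pow_eq_bot_of_isLocalRing _ (Ideal.IsPrime.ne_top inferInstance)] at h1
      have h2 := (map_eq_zero_iff _ (IsLocalization.injective (Localization.AtPrime M)
        M.primeCompl_le_nonZeroDivisors)).1 h1
      exact hp h2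
    · exact ⟨0, fun h => absurd h hM⟩
  choose c hc using key
  refine ⟨max (c (IsLocalRing.maximalIdeal D)) (Nat.card (D ⧸ IsLocalRing.maximalIdeal D)),
    fun M hM hpM => ?_⟩
  obtain rfl := IsLocalRing.eq_maximalIdeal hM
  refine ⟨fun h => hc _ hM (Ideal.pow_le_pow_right ?_ h), le_max_right _ _⟩
  exact (le_max_left _ _).trans (Nat.le_succ _)

theorem isADDB_three : IsADDB ℤ_[3] where
  not_isField := IsDiscreteValuationRing.not_isField _
  almost_dedekind := by
    intro M hM
    exact IsLocalization.AtPrime.isDiscreteValuationRing_of_dedekind_domain ℤ_[3]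
      (Ring.ne_bot_of_isMaximal_of_not_isField hM (IsDiscreteValuationRing.not_isField _)) _
  finite_residue := by
    intro M hM
    obtain rfl := IsLocalRing.eq_maximalIdeal hM
    exact Finite.of_equiv (ZMod 3) (PadicInt.residueField (p := 3)).symm.toEquiv
  bounded := by
    refine ⟨(algebraMap ℤ ℤ_[3]).range, Or.inl ⟨(RingEquiv.ofBijective
      (algebraMap ℤ ℤ_[3]).rangeRestrict
      ⟨?_, (algebraMap ℤ ℤ_[3]).rangeRestrict_surjective⟩).symm⟩, fun p hp => ?_⟩
    · intro x y h
      have := congrArg Subtype.val h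
      exact RingHom.injective_int (algebraMap ℤ ℤ_[3]) this
    · exact bounded_local _ fun h => hp.ne_zero (Subtype.ext h)

end Pool.Agent.H34.Ipq
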