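import Pool.Agent.H34.Ipq.Addb3
import Pool.Agent.H34.Ipg.Main

/-!
# A noncommutative algebra over `ℤ₃` which contains all its integral fractions
-/

set_option autoImplicit false

open Polynomial Quaternion Pool.Agent.H34.Ipg Pool.Agent.V113.IntK Pool.Agent.H17Sv

namespace Pool.Agent.H34.Ipq

theorem full_self {D : Type*} [CommRing D] [IsDomain D] [IsIntegrallyClosed D] {n r : D}
    (hn : n ≠ 0) {P : D[X]} (hP : P.Monic) (h0 : aeval r (P.scaleRoots n) = 0) :
    ∃ y, r = n * y := by
  have hnK : algebraMap D (FractionRing D) n ≠ 0 := fun h =>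
    hn ((map_eq_zero_iff _ (IsFractionRing.injective D (FractionRing D))).1 h)
  have h2 : n • ((algebraMap D (FractionRing D) n)⁻¹ * algebraMap D (FractionRing D) r) =
      algebraMap D (FractionRing D) r := by
    rw [Algebra.smul_def, ← mul_assoc, mul_inv_cancel₀ hnK, one_mul]
  have h3 := aeval_scaleRoots n
    ((algebraMap D (FractionRing D) n)⁻¹ * algebraMap D (FractionRing D) r) P
  rw [h2, aeval_algebraMap_apply, h0, map_zero, Algebra.smul_def, map_pow] at h3
  have h4 : aeval ((algebraMap D (FractionRing D) n)⁻¹ * algebraMap D (FractionRing D) r) P = 0 :=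
    (mul_eq_zero.1 h3.symm).resolve_left (pow_ne_zero _ hnK)
  obtain ⟨y, hy⟩ := IsIntegrallyClosed.isIntegral_iff.1
    (⟨P, hP, h4⟩ : IsIntegral D
      ((algebraMap D (FractionRing D) n)⁻¹ * algebraMap D (FractionRing D) r))
  refine ⟨y, IsFractionRing.injective D (FractionRing D) ?_⟩
  rw [map_mul, hy, ← mul_assoc, mul_inv_cancel₀ hnK, one_mul]

theorem norm_of_integral {D A : Type*} [CommRing D] [IsDomain D] [IsIntegrallyClosed D] [Ring A]
    [Algebra D A] (a : A) (T N : D) (hχ : a ^ 2 - T • a + algebraMap D A N = 0)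
    (hind : ∀ α β : D, α • a + algebraMap D A β = 0 → α = 0 ∧ β = 0) {n : D} (hn : n ≠ 0)
    {P : D[X]} (hP : P.Monic) (h0 : aeval a (P.scaleRoots n) = 0) : n ^ 2 ∣ N := by
  set χ : D[X] := X ^ 2 - C T * X + C N with hχdef
  have hdeg : (-(C T * X) + C N : D[X]).degree < 2 := by
    refine (degree_add_le _ _).trans_lt (max_lt ?_ ?_)
    · rw [degree_neg]
      exact (degree_C_mul_X_le T).trans_lt (by norm_num)
    · exact degree_C_le.trans_lt (by norm_num)
  have hχe : χ = X ^ 2 + (-(C T * X) + C N) := by rw [hχdef]; ring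
  have hmon : χ.Monic := by
    rw [hχe]
    exact monic_X_pow_add (by exact_mod_cast hdeg)
  have hnd : χ.natDegree = 2 := by
    rw [hχe]
    exact natDegree_eq_of_degree_eq_some (by
      rw [degree_add_eq_left_of_degree_lt (by rw [degree_X_pow]; exact_mod_cast hdeg),
        degree_X_pow])
  have hχ0 : aeval a χ = 0 := by
    rw [hχdef]
    simp only [map_add, map_sub, map_mul, map_pow, aeval_X, aeval_C]
    rw [← Algebra.smul_def]
    exact hχ
  have hr : (P.scaleRoots n) %ₘ χ = 0 := by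
    have h1 : aeval a ((P.scaleRoots n) %ₘ χ) = 0 := by
      have h2 := congrArg (aeval a) (modByMonic_add_div (P.scaleRoots n) χ)
      rw [map_add, map_mul, hχ0, zero_mul, add_zero, h0] at h2
      exact h2
    have h3 : ((P.scaleRoots n) %ₘ χ).degree ≤ 1 := by
      have h4 := degree_modByMonic_lt (P.scaleRoots n) hmon
      rw [degree_eq_natDegree hmon.ne_zero, hnd] at h4
      by_cases hz : (P.scaleRoots n) %ₘ χ = 0
      · rw [hz]; simp
      · rw [degree_eq_natDegree hz] at h4 ⊢
        have : ((P.scaleRoots n) %ₘ χ).natDegree < 2 := by exact_mod_cast h4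
        exact_mod_cast Nat.lt_succ_iff.1 this
    have h5 := eq_X_add_C_of_degree_le_one h3
    rw [h5] at h1
    simp only [map_add, map_mul, aeval_X, aeval_C] at h1
    rw [← Algebra.smul_def] at h1
    obtain ⟨h6, h7⟩ := hind _ _ h1
    rw [h5, h6, h7]
    simp
  obtain ⟨Q, hQ⟩ := (modByMonic_eq_zero_iff_dvd hmon).1 hr
  have hnK : algebraMap D (FractionRing D) n ≠ 0 := fun h =>
    hn ((map_eq_zero_iff _ (IsFractionRing.injective D (FractionRing D))).1 h)
  set ι := algebraMap D (FractionRing D)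
  have hιinj : Function.Injective ι := IsFractionRing.injective D (FractionRing D)
  have h8 : (P.scaleRoots n).map ι = (P.map ι).scaleRoots (ι n) :=
    map_scaleRoots _ _ _ (by rw [hP.leadingCoeff, map_one]; exact one_ne_zero)
  have h9 : ((P.scaleRoots n).map ι).scaleRoots (ι n)⁻¹ = P.map ι := by
    rw [h8, ← scaleRoots_mul, mul_inv_cancel₀ hnK, scaleRoots_one]
  have h10 : (χ.map ι).scaleRoots (ι n)⁻¹ ∣ P.map ι := by
    rw [← h9, hQ, Polynomial.map_mul, mul_scaleRoots_of_noZeroDivisors]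
    exact dvd_mul_right _ _
  obtain ⟨g', hg'⟩ := IsIntegrallyClosed.eq_map_mul_C_of_dvd (FractionRing D) hP h10
  have hlc : ((χ.map ι).scaleRoots (ι n)⁻¹).leadingCoeff = 1 := by
    have := (monic_scaleRoots_iff ((ι n)⁻¹)).2 (hmon.map ι)
    exact this
  rw [hlc, C_1, mul_one] at hg'
  have h11 := congrArg (fun p => coeff p 0) hg'
  simp only [coeff_map, coeff_scaleRoots] at h11
  rw [hmon.natDegree_map, hnd] at h11
  have h12 : χ.coeff 0 = N := by rw [hχdef]; simp
  rw [h12, Nat.sub_zero] at h11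
  refine ⟨g'.coeff 0, hιinj ?_⟩
  rw [map_mul, map_pow, h11]
  field_simp

/-- The quaternion order over `ℤ₃` with `i² = -1` and `j² = 3`. -/
abbrev Hur : Type := ℍ[ℤ_[3], -1, 0, 3]

theorem full_hur : Full ℤ_[3] Hur := by
  intro n a P hn hP h0
  by_cases him : a.imI = 0 ∧ a.imJ = 0 ∧ a.imK = 0
  · have ha : a = algebraMap ℤ_[3] Hur a.re := by
      ext <;> simp [QuaternionAlgebra.algebraMap_eq, him.1, him.2.1, him.2.2]
    have h1 : aeval a.re (P.scaleRoots n) = 0 := by
      rw [ha, aeval_algebraMap_apply] at h0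
      have h2 := congrArg QuaternionAlgebra.re h0
      simpa [QuaternionAlgebra.algebraMap_eq] using h2
    obtain ⟨y, hy⟩ := full_self hn hP h1
    refine ⟨algebraMap ℤ_[3] Hur y, ?_⟩
    conv_lhs => rw [ha]
    rw [hy, map_mul, Algebra.smul_def]
  · have h1 : n ^ 2 ∣ a.re ^ 2 + a.imI ^ 2 - 3 * a.imJ ^ 2 - 3 * a.imK ^ 2 := by
      refine norm_of_integral a (2 * a.re) _ ?_ ?_ hn hP h0
      · ext <;> simp [QuaternionAlgebra.algebraMap_eq, pow_two] <;> ring
      · intro α β h
        have e1 := congrArg QuaternionAlgebra.re h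
        have e2 := congrArg QuaternionAlgebra.imI h
        have e3 := congrArg QuaternionAlgebra.imJ h
        have e4 := congrArg QuaternionAlgebra.imK h
        simp [QuaternionAlgebra.algebraMap_eq] at e1 e2 e3 e4
        have hα : α = 0 := by
          by_contra hα
          exact him ⟨e2.resolve_left hα, e3.resolve_left hα, e4.resolve_left hα⟩
        refine ⟨hα, ?_⟩
        rw [hα] at e1
        simpa using e1
    obtain ⟨⟨x, hx⟩, ⟨y, hy⟩, ⟨z, hz⟩, ⟨w, hw⟩⟩ := norm_dvd hn _ _ _ _ h1
    exact ⟨⟨x, y, z, w⟩, by ext <;> simp [hx, hy, hz, hw]⟩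

end Pool.Agent.H34.Ipq
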