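import Pool.Agent.H34.Ipq.Ex

/-!
# `Int_K(A)` is a Prüfer domain for a noncommutative `A` over `ℤ₃`
-/

set_option autoImplicit false

open Polynomial Quaternion Pool.Agent.H34.Ipg Pool.Agent.V113.IntK Pool.Agent.H17Sv

namespace Pool.Agent.H34.Ipq

theorem torsionFree_hur : Module.IsTorsionFree ℤ_[3] Hur := inferInstance

theorem noncommutative : IsADDB ℤ_[3] ∧ Module.Finite ℤ_[3] Hur ∧ Module.IsTorsionFree ℤ_[3] Hur ∧
    IsIntegrallyClosed (IntK ℤ_[3] ℚ_[3] Hur) ∧ IsPruefer (IntK ℤ_[3] ℚ_[3] Hur) ∧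
    ∃ x y : Hur, x * y ≠ y * x := by
  have hD := isADDB_three
  have h1 := (full_iff (R := ℤ_[3]) (D := ℤ_[3]) (K := ℚ_[3]) (A := Hur)).2 full_hur
  have h2 := (closed_iff ℤ_[3] ℚ_[3] Hur hD).2 h1
  refine ⟨hD, inferInstance, torsionFree_hur, h2, (closed_iff_pruefer ℤ_[3] ℚ_[3] Hur hD).1 h2,
    ⟨0, 1, 0, 0⟩, ⟨0, 0, 1, 0⟩, fun h => ?_⟩
  have h3 := congrArg QuaternionAlgebra.imK h
  simp at h3
  have h4 : (2 : ℤ_[3]) = 0 := by linear_combination h3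
  exact two_ne_zero h4

end Pool.Agent.H34.Ipq
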