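import Mathlib

/-!
# The quaternion order `ℤ₃⟨1, i, j, ij⟩`, `i² = -1`, `j² = 3`: divisibility of the norm
-/

set_option autoImplicit false

open Polynomial Quaternion

namespace Pool.Agent.H34.Ipq

instance : Fact (Nat.Prime 3) := ⟨by norm_num⟩

theorem res {x y : ℤ_[3]} (h : (3 : ℤ_[3]) ∣ x ^ 2 + y ^ 2) :
    (3 : ℤ_[3]) ∣ x ∧ (3 : ℤ_[3]) ∣ y := by
  have hk : ∀ z : ℤ_[3], PadicInt.toZMod z = 0 ↔ (3 : ℤ_[3]) ∣ z := by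
    intro z
    rw [← RingHom.mem_ker, PadicInt.ker_toZMod, PadicInt.maximalIdeal_eq_span_p,
      Ideal.mem_span_singleton]
    rfl
  rw [← hk, map_add, map_pow, map_pow] at h
  rw [← hk, ← hk]
  have key : ∀ a b : ZMod 3, a ^ 2 + b ^ 2 = 0 → a = 0 ∧ b = 0 := by decide
  exact key _ _ h

theorem three_ne : (3 : ℤ_[3]) ≠ 0 := by
  have : ((3 : ℕ) : ℤ_[3]) ≠ 0 := Nat.cast_ne_zero.2 (by norm_num)
  exact_mod_cast this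

theorem norm_step (k : ℕ) : ∀ x y z w : ℤ_[3],
    (3 : ℤ_[3]) ^ (2 * k) ∣ x ^ 2 + y ^ 2 - 3 * z ^ 2 - 3 * w ^ 2 →
      (3 : ℤ_[3]) ^ k ∣ x ∧ (3 : ℤ_[3]) ^ k ∣ y ∧ (3 : ℤ_[3]) ^ k ∣ z ∧ (3 : ℤ_[3]) ^ k ∣ w := by
  induction k with
  | zero => intro x y z w _; simp
  | succ k ih =>
    intro x y z w h
    obtain ⟨d, hd⟩ := h
    have e : (3 : ℤ_[3]) ^ (2 * (k + 1)) = 3 * (3 * 3 ^ (2 * k)) := by ring
    rw [e] at hd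
    obtain ⟨⟨x', hx⟩, ⟨y', hy⟩⟩ := res (x := x) (y := y)
      ⟨3 * 3 ^ (2 * k) * d + z ^ 2 + w ^ 2, by linear_combination hd⟩
    subst hx hy
    have h2 : z ^ 2 + w ^ 2 = 3 * (x' ^ 2 + y' ^ 2 - 3 ^ (2 * k) * d) := by
      apply mul_left_cancel₀ three_ne
      linear_combination -hd
    obtain ⟨⟨z', hz⟩, ⟨w', hw⟩⟩ := res (x := z) (y := w) ⟨_, h2⟩
    subst hz hw
    have h3 : (3 : ℤ_[3]) ^ (2 * k) ∣ x' ^ 2 + y' ^ 2 - 3 * z' ^ 2 - 3 * w' ^ 2 := by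
      refine ⟨d, ?_⟩
      apply mul_left_cancel₀ three_ne
      linear_combination -h2
    obtain ⟨h4, h5, h6, h7⟩ := ih _ _ _ _ h3
    rw [pow_succ']
    exact ⟨mul_dvd_mul_left 3 h4, mul_dvd_mul_left 3 h5, mul_dvd_mul_left 3 h6,
      mul_dvd_mul_left 3 h7⟩

theorem norm_dvd {n : ℤ_[3]} (hn : n ≠ 0) (x y z w : ℤ_[3])
    (h : n ^ 2 ∣ x ^ 2 + y ^ 2 - 3 * z ^ 2 - 3 * w ^ 2) : n ∣ x ∧ n ∣ y ∧ n ∣ z ∧ n ∣ w := by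
  have hs := PadicInt.unitCoeff_spec hn
  have hass : Associated ((3 : ℤ_[3]) ^ n.valuation) n := by
    refine ⟨PadicInt.unitCoeff hn, ?_⟩
    conv_rhs => rw [hs]
    rw [mul_comm]
    norm_cast
  have h1 : (3 : ℤ_[3]) ^ (2 * n.valuation) ∣ x ^ 2 + y ^ 2 - 3 * z ^ 2 - 3 * w ^ 2 := by
    rw [mul_comm, pow_mul]
    exact (hass.pow_pow.dvd).trans h
  obtain ⟨h2, h3, h4, h5⟩ := norm_step _ _ _ _ _ h1
  exact ⟨hass.symm.dvd.trans h2, hass.symm.dvd.trans h3, hass.symm.dvd.trans h4,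
    hass.symm.dvd.trans h5⟩

end Pool.Agent.H34.Ipq
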